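import Pool.Agent.R271.RadPair

namespace Pool.Agent.Results.MP_30e1ee_an.NoWMP

open MeasureTheory Set
open scoped ENNReal
open Pool.Agent.R271.Kh

/-- For all `1 < p ≤ 2 ≤ q < ∞` with `(p, q) ≠ (2, 2)` the pair `(L_p[0,1], L_q[0,1])` (real or
complex scalars) fails the weak maximizing property. -/
theorem result (𝕜 : Type*) [RCLike 𝕜] (p q : ℝ≥0∞) [Fact (1 ≤ p)] [Fact (1 ≤ q)]
    (hp : 1 < p) (hp2 : p ≤ 2) (hq2 : 2 ≤ q) (hq : q < ∞) (hpq : (p, q) ≠ (2, 2)) :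
    ¬ WMP 𝕜 (Lp 𝕜 p (volume.restrict (Icc (0:ℝ) 1))) (Lp 𝕜 q (volume.restrict (Icc (0:ℝ) 1))) := by
  have hpt : p ≠ ∞ := ne_top_of_le_ne_top ENNReal.ofNat_ne_top hp2
  set p' : ℝ≥0∞ := p.conjExponent with hp'
  have : p.HolderConjugate p' := ENNReal.HolderConjugate.conjExponent hp.le
  have hsub0 : p - 1 ≠ 0 := (tsub_pos_of_lt hp).ne'
  have hsub1 : p - 1 ≤ 1 := by
    rw [tsub_le_iff_right]
    exact hp2.trans_eq (by norm_num)
  have hp'2 : 2 ≤ p' := by
    rw [hp', ENNReal.conjExponent]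
    calc (2:ℝ≥0∞) = 1 + 1 := by norm_num
      _ ≤ 1 + (p-1)⁻¹ := by
          gcongr
          exact ENNReal.one_le_inv.2 hsub1
  have hp't : p' ≠ ∞ := by
    rw [hp', ENNReal.conjExponent]
    exact ENNReal.add_ne_top.2 ⟨ENNReal.one_ne_top, ENNReal.inv_ne_top.2 hsub0⟩
  have : Fact (1 ≤ p') := ⟨le_trans (by norm_num) hp'2⟩
  -- real exponents
  have hpr : 1 < p.toReal := by
    rw [← ENNReal.toReal_one]
    exact (ENNReal.toReal_lt_toReal ENNReal.one_ne_top hpt).2 hp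
  have hqr : 2 ≤ q.toReal := by
    rw [← ENNReal.toReal_ofNat 2]
    exact (ENNReal.toReal_le_toReal ENNReal.ofNat_ne_top hq.ne).2 hq2
  have hp'r : 2 ≤ p'.toReal := by
    rw [← ENNReal.toReal_ofNat 2]
    exact (ENNReal.toReal_le_toReal ENNReal.ofNat_ne_top hp't).2 hp'2
  have hp'v : p'.toReal - 1 = (p.toReal - 1)⁻¹ := by
    rw [hp', ENNReal.conjExponent, ENNReal.toReal_add ENNReal.one_ne_top
      (ENNReal.inv_ne_top.2 hsub0), ENNReal.toReal_inv, ENNReal.toReal_sub_of_le hp.le hpt,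
      ENNReal.toReal_one]
    ring
  have hκ : kap p'.toReal * kap q.toReal < √((q.toReal - 1)/(p.toReal - 1)) := by
    rw [Real.lt_sqrt (mul_nonneg (kap_pos _).le (kap_pos _).le), mul_pow, div_eq_mul_inv, ← hp'v,
      mul_comm (q.toReal - 1)]
    by_cases hc : q = 2
    · have hpne : p ≠ 2 := fun h => hpq (by rw [h, hc])
      have hplt : p < 2 := lt_of_le_of_ne hp2 hpne
      have hpr2 : p.toReal < 2 := by
        rw [← ENNReal.toReal_ofNat 2]
        exact (ENNReal.toReal_lt_toReal hpt ENNReal.ofNat_ne_top).2 hplt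
      have hp'gt : 2 < p'.toReal := by
        have h1 : 1 < (p.toReal - 1)⁻¹ := (one_lt_inv₀ (by linarith)).2 (by linarith)
        linarith
      exact mul_lt_mul (kap_sq_lt hp'gt) (kap_sq_le hqr) (pow_pos (kap_pos _) 2) (by linarith)
    · have hqgt : 2 < q := lt_of_le_of_ne hq2 (Ne.symm hc)
      have hqr2 : 2 < q.toReal := by
        rw [← ENNReal.toReal_ofNat 2]
        exact (ENNReal.toReal_lt_toReal ENNReal.ofNat_ne_top hq.ne).2 hqgt
      exact mul_lt_mul' (kap_sq_le hp'r) (kap_sq_lt hqr2) (sq_nonneg _) (by linarith)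
  exact not_WMP hpr hqr (kap_pos _).le (kap_pos _).le (prL (p := p) (p' := p') (Uo 𝕜 p'))
    (fun f => by
      have := norm_pr_le f (Uo 𝕜 p')
      rwa [norm_Uo hp't, mul_one] at this)
    (fun i => prL (Rd 𝕜 p' i)) (fun t f => bessel hp'2 hp't t f)
    (Uo 𝕜 q) (Rd 𝕜 q) (fun t b => norm_fin_comb q hq.ne hq2 t b)
    (fun N b c => norm_comb q hq.ne N b c)
    sh norm_sh pr_sh_one pr_sh_zero (fun i f => pr_sh_succ f i)
    (tv 𝕜 p) (norm_tv hpt)
    (fun ε => by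
      rw [prL_apply, tv, pr_add_left, pr_smul_left, pr_Uo_Uo, pr_Rd_Uo, mul_zero, add_zero])
    (fun ε => by
      rw [prL_apply, tv, pr_add_left, pr_smul_left, pr_Uo_Rd, pr_Rd_zero_zero, mul_one, zero_add])
    (fun i ε => by
      rw [prL_apply, tv, pr_add_left, pr_smul_left, pr_Uo_Rd, pr_Rd_zero_succ, mul_zero, zero_add])
    hκ

end Pool.Agent.Results.MP_30e1ee_an.NoWMP
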